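import Pool.Agent.Lead.Haight1

set_option autoImplicit false

open MeasureTheory Set
open Pool.Agent.Lead.Haight

namespace Pool.Agent.Results.MP_bfec62_an.Counter

/-- A Borel set `E` in `[1,2]` of positive measure such that for every `x` in `(0,1/2]` there are
infinitely many positive integers `n` with `n x` outside the union of the dilates `r E`. -/
theorem result :
    ∃ E : Set ℝ, MeasurableSet E ∧ E ⊆ Icc 1 2 ∧ 0 < volume E ∧
      ∀ x ∈ Ioc (0 : ℝ) (1 / 2),
        {n : ℕ | 1 ≤ n ∧ ¬ ∃ r : ℕ, 1 ≤ r ∧ ∃ e ∈ E, (n : ℝ) * x = (r : ℝ) * e}.Infinite := by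
  have hst := fun i : ℕ => stage (200 * 2 ^ i) i (by have := Nat.one_le_two_pow (n := i); omega)
  choose ξ hξ hp using hst
  set U : ℕ → Set ℝ := fun i => {t ∈ Icc (1 : ℝ) 2 |
    ‖((ξ i * Real.log t : ℝ) : UnitAddCircle)‖ ≤ 3 / ((200 * 2 ^ i : ℕ) : ℝ)} with hU
  have mU : ∀ i, MeasurableSet (U i) := fun i => by
    have hm : Measurable fun t : ℝ => ‖((ξ i * Real.log t : ℝ) : UnitAddCircle)‖ :=
      (continuous_norm.comp (AddCircle.continuous_mk' (1 : ℝ))).measurable.comp
        (Real.measurable_log.const_mul _)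
    have hs := measurableSet_le hm (measurable_const (a := (3 / ((200 * 2 ^ i : ℕ) : ℝ) : ℝ)))
    exact MeasurableSet.inter measurableSet_Icc hs
  have vU : ∀ i, volume (U i) ≤ ENNReal.ofReal (21 / 50 * (1 / 2) ^ i) := fun i => by
    have h1 : (1 : ℝ) ≤ 2 ^ i := one_le_pow₀ (by norm_num)
    refine (vol_bound (hξ i) (by positivity) ?_).trans (le_of_eq ?_)
    · rw [div_le_one (by positivity)]; push_cast; linarith
    · congr 1; push_cast; rw [one_div, inv_pow]; field_simp; norm_num
  refine ⟨Icc 1 2 \ ⋃ i, U i, measurableSet_Icc.diff (MeasurableSet.iUnion mU), sdiff_subset, ?_,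
    fun x hx => ?_⟩
  · rw [pos_iff_ne_zero]
    intro h0
    have h1 : volume (Icc (1 : ℝ) 2) ≤ volume (⋃ i, U i) := by
      refine (measure_le_inter_add_sdiff volume _ (⋃ i, U i)).trans ?_
      rw [h0, add_zero]
      exact measure_mono inter_subset_right
    have h2 : volume (⋃ i, U i) ≤ ENNReal.ofReal (21 / 25) := by
      refine (measure_iUnion_le _).trans ((ENNReal.tsum_le_tsum vU).trans (le_of_eq ?_))
      rw [← ENNReal.ofReal_tsum_of_nonneg (fun i => by positivity)
        (summable_geometric_two.mul_left _), tsum_mul_left, tsum_geometric_two]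
      norm_num
    have h3 := h1.trans h2
    rw [Real.volume_Icc, ENNReal.ofReal_le_ofReal_iff (by norm_num)] at h3
    norm_num at h3
  · refine Set.infinite_of_forall_exists_gt fun i => ?_
    obtain ⟨p, p1, p2⟩ := hp i x hx.1
    refine ⟨p, ⟨by omega, ?_⟩, p1⟩
    rintro ⟨r, r1, e, ⟨he, he'⟩, h⟩
    have r0 : (0 : ℝ) < r := by exact_mod_cast r1
    have r2 : 2 * r ≤ p := by
      have : (2 : ℝ) * r ≤ p := by
        have : (0 : ℝ) ≤ p := by positivity
        nlinarith [hx.2, he.1]
      exact_mod_cast this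
    have := p2 r r1 r2
    rw [h, mul_div_cancel_left₀ _ r0.ne'] at this
    exact he' (mem_iUnion.2 ⟨i, he, this⟩)

end Pool.Agent.Results.MP_bfec62_an.Counter
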